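import Pool.Agent.Helper57.NW.Defs
import Pool.Agent.Helper64.TX.Var

/-!
# NW: V0, one scale
-/

set_option autoImplicit false
open MeasureTheory Set Filter Topology
open Pool.Agent.Helper69.UG (XX NX)
open Pool.Agent.Helper57.TX (QX DP rs)
open Pool.Agent.Helper57.NW

namespace Pool.Agent.Helper7.NW

/-- V0 -/
theorem norm_one : ∃ C T₀ : ℝ, 1 ≤ C ∧ ∀ T M : ℝ, T₀ ≤ T → 1 ≤ M → M ≤ Real.log T →
    ∑ p ∈ QX (XX T M), rs (XX T M) p ^ 2 / p ≤ C := by
  obtain ⟨C, hC, h⟩ := Pool.Agent.Helper64.TX.var_rs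
  refine ⟨max C 1, 0, le_max_right _ _, fun T M _ hM hML => ?_⟩
  refine (h (XX T M) ?_).trans (le_max_left _ _)
  unfold XX
  have h1 : 1 ≤ Real.log T / M := (one_le_div (by linarith)).2 hML
  linarith

end Pool.Agent.Helper7.NW
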