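import Pool.Agent.Helper7.NW.Fl

/-!
# NW: V3, the size of the coefficients
-/

set_option autoImplicit false
open MeasureTheory Set Filter Topology
open Pool.Agent.Helper69.UG (XX NX)
open Pool.Agent.Helper57.TX (QX DP rs)
open Pool.Agent.Helper57.NW

namespace Pool.Agent.Helper7.NW

lemma log_sq_le {p : ℕ} (hp : 1 ≤ p) : Real.log p ^ 2 ≤ p := by
  have hp0 : (0:ℝ) < p := by exact_mod_cast hp
  obtain ⟨y, hydef⟩ : ∃ y : ℝ, y = Real.log p := ⟨_, rfl⟩
  have hy : 0 ≤ y := by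
    rw [hydef]
    exact Real.log_natCast_nonneg p
  have h1 : y / 6 + 1 ≤ Real.exp (y / 6) := Real.add_one_le_exp _
  have h2 : Real.exp (y / 6) ^ 6 = p := by
    rw [← Real.exp_nat_mul]
    push_cast
    rw [mul_div_cancel₀ _ (by norm_num : (6:ℝ) ≠ 0), hydef, Real.exp_log hp0]
  have h3 : (y / 6 + 1) ^ 3 ≤ Real.exp (y / 6) ^ 3 := pow_le_pow_left₀ (by linarith) h1 3
  have h4 : y ≤ (y / 6 + 1) ^ 3 := by
    have h5 : (y / 6 + 1) ^ 3 - y = (y / 6) ^ 3 + 3 * (y / 6 - 1 / 2) ^ 2 + 1 / 4 := by ring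
    have h6 : 0 ≤ (y / 6) ^ 3 := by positivity
    nlinarith [sq_nonneg (y / 6 - 1 / 2)]
  have h7 : y ^ 2 ≤ (Real.exp (y / 6) ^ 3) ^ 2 := pow_le_pow_left₀ hy (h4.trans h3) 2
  rw [← hydef]
  calc y ^ 2 ≤ (Real.exp (y / 6) ^ 3) ^ 2 := h7
    _ = Real.exp (y / 6) ^ 6 := by rw [← pow_mul]
    _ = p := h2

/-- V3 -/
theorem rb_le {k d : ℝ} (hk : 0 < k) (hk8 : k ≤ 1 / 8) (hd : 0 < d) (hd1 : d ≤ 1) (n : ℕ) : ∃ c C T₀ : ℝ, 0 < c ∧ 1 ≤ C ∧
    ∀ T R L : ℝ, T₀ ≤ T → C ≤ L → L ≤ Real.log T → 1 ≤ R → R ≤ L ^ (1 - d) → ∀ p : ℕ, p.Prime →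
      rb k T (Jw k L n) (bw k R L n) p ^ 2 / p ≤ C * L ^ (-c) := by
  obtain ⟨B, C0, hB, hC0, h⟩ := bw_facts hk hk8 hd hd1 n
  set D : ℝ := B * (2 * (1 + k) ^ n) with hD
  have hD0 : 0 ≤ D := by positivity
  refine ⟨2 * (k * d), max C0 (D ^ 2), 0, by positivity, hC0.trans (le_max_left _ _), ?_⟩
  intro T R L _ hL hLT hR hRL p hp
  have hL0 : C0 ≤ L := (le_max_left _ _).trans hL
  have hL1 : 1 ≤ L := hC0.trans hL0
  have hLp : 0 < L := by linarith
  have hR0 : 0 < R := by linarith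
  have hT : 0 < Real.log T := by linarith
  obtain ⟨i1, i2, _⟩ := h R L hL0 hR hRL
  have hp0 : (0:ℝ) < p := by exact_mod_cast hp.pos
  have hy : 0 ≤ Real.log p := Real.log_natCast_nonneg p
  have hpow : (L / R) ^ (-k) ≤ L ^ (-(k * d)) := by
    have h1 : L ^ d ≤ L / R := by
      rw [le_div_iff₀ hR0]
      calc L ^ d * R ≤ L ^ d * L ^ (1 - d) := mul_le_mul_of_nonneg_left hRL (by positivity)
        _ = L := by
            rw [← Real.rpow_add hLp]
            norm_num
    calc (L / R) ^ (-k) ≤ (L ^ d) ^ (-k) := Real.rpow_le_rpow_of_nonpos (by positivity) h1 (by linarith)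
      _ = L ^ (-(k * d)) := by
          rw [← Real.rpow_mul hLp.le]
          congr 1
          ring
  set E : ℝ := 2 * Real.log p * ((1 + k) ^ n * L ^ (-(k * d))) with hE
  have hE0 : 0 ≤ E := by positivity
  have hterm : ∀ j ∈ Jw k L n, |bw k R L n j * (if Real.log p ≤ XX T ((1 + k) ^ j) then rs (XX T ((1 + k) ^ j)) p else 0)| ≤
      |bw k R L n j| * E := by
    intro j _
    rw [abs_mul]
    by_cases hb : bw k R L n j = 0
    · rw [hb, abs_zero, zero_mul, zero_mul]
    · refine mul_le_mul_of_nonneg_left ?_ (abs_nonneg _)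
      obtain ⟨_, _, e3⟩ := i1 j hb
      split_ifs with hle
      · have hj0 : (0:ℝ) < (1 + k) ^ j := by positivity
        have hX : 0 < XX T ((1 + k) ^ j) := by
          unfold XX
          positivity
        have hu0 : 0 ≤ Real.log p / XX T ((1 + k) ^ j) := div_nonneg hy hX.le
        have hu1 : Real.log p / XX T ((1 + k) ^ j) ≤ 1 := (div_le_one hX).2 hle
        have hrs : rs (XX T ((1 + k) ^ j)) p = 2 * (Real.log p / XX T ((1 + k) ^ j)) * (1 - Real.log p / XX T ((1 + k) ^ j)) ^ 2 := by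
          unfold rs
          ring
        have h1 : |rs (XX T ((1 + k) ^ j)) p| ≤ 2 * (Real.log p / XX T ((1 + k) ^ j)) := by
          rw [hrs, abs_of_nonneg (by positivity)]
          refine mul_le_of_le_one_right (by positivity) ?_
          exact pow_le_one₀ (by linarith) (by linarith)
        refine h1.trans ?_
        have h2 : Real.log p / XX T ((1 + k) ^ j) = Real.log p * ((1 + k) ^ j / Real.log T) := by
          unfold XX
          field_simp
        have h3 : (1 + k) ^ j / Real.log T ≤ (1 + k) ^ n * L ^ (-(k * d)) := by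
          rw [div_le_iff₀ hT]
          calc (1 + k) ^ j ≤ (1 + k) ^ n * (L * (L / R) ^ (-k)) := e3
            _ ≤ (1 + k) ^ n * (Real.log T * L ^ (-(k * d))) := by
                refine mul_le_mul_of_nonneg_left ?_ (by positivity)
                exact mul_le_mul hLT hpow (by positivity) hT.le
            _ = (1 + k) ^ n * L ^ (-(k * d)) * Real.log T := by ring
        rw [h2, hE]
        calc 2 * (Real.log p * ((1 + k) ^ j / Real.log T)) = 2 * Real.log p * ((1 + k) ^ j / Real.log T) := by ring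
          _ ≤ 2 * Real.log p * ((1 + k) ^ n * L ^ (-(k * d))) := mul_le_mul_of_nonneg_left h3 (by positivity)
      · rw [abs_zero]
        exact hE0
  have hrb : |rb k T (Jw k L n) (bw k R L n) p| ≤ B * E := by
    unfold rb
    refine (Finset.abs_sum_le_sum_abs _ _).trans ((Finset.sum_le_sum hterm).trans ?_)
    rw [← Finset.sum_mul]
    exact mul_le_mul_of_nonneg_right i2 hE0
  have hsq : rb k T (Jw k L n) (bw k R L n) p ^ 2 ≤ (B * E) ^ 2 := by
    rw [← sq_abs]
    exact pow_le_pow_left₀ (abs_nonneg _) hrb 2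
  have hBE : (B * E) ^ 2 = D ^ 2 * L ^ (-(2 * (k * d))) * Real.log p ^ 2 := by
    have h1 : L ^ (-(2 * (k * d))) = L ^ (-(k * d)) * L ^ (-(k * d)) := by
      rw [← Real.rpow_add hLp]
      congr 1
      ring
    rw [h1, hE, hD]
    ring
  rw [div_le_iff₀ hp0]
  refine hsq.trans ?_
  rw [hBE]
  have h5 := log_sq_le hp.one_lt.le
  calc D ^ 2 * L ^ (-(2 * (k * d))) * Real.log p ^ 2 ≤ D ^ 2 * L ^ (-(2 * (k * d))) * p :=
        mul_le_mul_of_nonneg_left h5 (by positivity)
    _ ≤ max C0 (D ^ 2) * L ^ (-(2 * (k * d))) * p := by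
        refine mul_le_mul_of_nonneg_right ?_ hp0.le
        exact mul_le_mul_of_nonneg_right (le_max_right _ _) (by positivity)

end Pool.Agent.Helper7.NW
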