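import Pool.Agent.Helper57.NW.Defs

/-!
# NW: FL0, FL1, the number of the scales and the weights
-/

set_option autoImplicit false
open MeasureTheory Set Filter Topology
open Pool.Agent.Helper57.NW

namespace Pool.Agent.Helper7.NW

/-- the left shift -/
def sh (b : ℕ → ℝ) (j : ℕ) : ℝ := if j = 0 then 0 else b (j - 1)

lemma fl_eq (k : ℝ) (m : ℕ) (b : ℕ → ℝ) (j : ℕ) :
    fl k m b j = (sh b j - b j / (1 + k) ^ (2 * m)) / (1 - 1 / (1 + k) ^ (2 * m)) := rfl

lemma sum_sh (b : ℕ → ℝ) (M : ℕ) : ∑ j ∈ Finset.range M, |sh b j| ≤ ∑ j ∈ Finset.range M, |b j| := by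
  rcases M with _ | M
  · simp
  · rw [Finset.sum_range_succ' (fun j => |sh b j|)]
    have h1 : ∀ j, sh b (j + 1) = b j := fun j => by simp [sh]
    have h2 : sh b 0 = 0 := by simp [sh]
    simp only [h1, h2, abs_zero, add_zero]
    rw [Finset.sum_range_succ]
    linarith [abs_nonneg (b M)]

lemma sh_fl (k : ℝ) (m : ℕ) (b : ℕ → ℝ) (j : ℕ) : sh (fl k m b) j = fl k m (sh b) j := by
  rcases j with _ | j
  · simp [sh, fl_eq]
  · rw [fl_eq]
    simp only [sh, Nat.add_one_ne_zero, if_false, Nat.add_sub_cancel, fl_eq]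

lemma fl_sub (k : ℝ) (m : ℕ) (b c : ℕ → ℝ) (j : ℕ) : fl k m b j - fl k m c j = fl k m (fun j => b j - c j) j := by
  rw [fl_eq, fl_eq, fl_eq]
  have : sh (fun j => b j - c j) j = sh b j - sh c j := by
    unfold sh
    split_ifs <;> ring
  rw [this]
  ring

lemma q_bd {k : ℝ} (hk : 0 < k) {m : ℕ} (hm : 1 ≤ m) :
    0 < 1 / (1 + k) ^ (2 * m) ∧ 1 / (1 + k) ^ (2 * m) ≤ 1 / (1 + k) ^ 2 ∧ 1 / (1 + k) ^ 2 < 1 := by
  have h1 : 1 < (1 + k) ^ 2 := by nlinarith
  refine ⟨by positivity, ?_, (div_lt_one (by positivity)).2 h1⟩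
  exact div_le_div_of_nonneg_left (by norm_num) (by positivity) (pow_le_pow_right₀ (by linarith) (by omega))

/-- one step: the `ℓ¹` norm -/
lemma fl_norm {k : ℝ} (hk : 0 < k) {m : ℕ} (hm : 1 ≤ m) (b : ℕ → ℝ) (M : ℕ) :
    ∑ j ∈ Finset.range M, |fl k m b j| ≤ 2 / (1 - 1 / (1 + k) ^ 2) * ∑ j ∈ Finset.range M, |b j| := by
  obtain ⟨h1, h2, h3⟩ := q_bd hk hm
  set q : ℝ := 1 / (1 + k) ^ (2 * m) with hq
  set q0 : ℝ := 1 / (1 + k) ^ 2 with hq0
  have hq1 : 0 < 1 - q := by linarith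
  have h4 : ∀ j, |fl k m b j| ≤ (|sh b j| + |b j|) / (1 - q0) := by
    intro j
    rw [fl_eq, abs_div, abs_of_pos hq1]
    have h5 : |sh b j - b j / (1 + k) ^ (2 * m)| ≤ |sh b j| + |b j| := by
      refine (abs_sub _ _).trans (add_le_add le_rfl ?_)
      rw [div_eq_mul_one_div, ← hq, abs_mul, abs_of_pos h1]
      exact mul_le_of_le_one_right (abs_nonneg _) (by linarith)
    exact div_le_div₀ (by positivity) h5 (by linarith) (by linarith)
  have hS := sum_sh b M
  calc ∑ j ∈ Finset.range M, |fl k m b j| ≤ ∑ j ∈ Finset.range M, (|sh b j| + |b j|) / (1 - q0) :=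
        Finset.sum_le_sum fun j _ => h4 j
    _ = (∑ j ∈ Finset.range M, |sh b j| + ∑ j ∈ Finset.range M, |b j|) / (1 - q0) := by
        rw [← Finset.sum_div, Finset.sum_add_distrib]
    _ ≤ (∑ j ∈ Finset.range M, |b j| + ∑ j ∈ Finset.range M, |b j|) / (1 - q0) :=
        div_le_div_of_nonneg_right (by linarith) (by linarith)
    _ = 2 / (1 - q0) * ∑ j ∈ Finset.range M, |b j| := by ring

/-- one step: the total variation -/
lemma fl_tv {k : ℝ} (hk : 0 < k) {m : ℕ} (hm : 1 ≤ m) (b : ℕ → ℝ) (M : ℕ) :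
    ∑ j ∈ Finset.range M, |sh (fl k m b) j - fl k m b j| ≤
      2 / (1 - 1 / (1 + k) ^ 2) * ∑ j ∈ Finset.range M, |sh b j - b j| := by
  have h1 : ∀ j, sh (fl k m b) j - fl k m b j = fl k m (fun j => sh b j - b j) j := by
    intro j
    rw [sh_fl, fl_sub]
  simp only [h1]
  exact fl_norm hk hm _ M

/-- one step: the change -/
lemma fl_diff {k : ℝ} (hk : 0 < k) {m : ℕ} (hm : 1 ≤ m) (b : ℕ → ℝ) (M : ℕ) :
    ∑ j ∈ Finset.range M, |fl k m b j - b j| ≤ 1 / (1 - 1 / (1 + k) ^ 2) * ∑ j ∈ Finset.range M, |sh b j - b j| := by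
  obtain ⟨h1, h2, h3⟩ := q_bd hk hm
  set q : ℝ := 1 / (1 + k) ^ (2 * m) with hq
  set q0 : ℝ := 1 / (1 + k) ^ 2 with hq0
  have hq1 : 0 < 1 - q := by linarith
  rw [Finset.mul_sum]
  refine Finset.sum_le_sum fun j _ => ?_
  have h4 : fl k m b j - b j = (sh b j - b j) / (1 - q) := by
    rw [fl_eq, div_eq_mul_one_div (b j), ← hq]
    field_simp
    ring
  rw [h4, abs_div, abs_of_pos hq1, one_div_mul_eq_div]
  exact div_le_div_of_nonneg_left (abs_nonneg _) (by linarith) (by linarith)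

/-- the logarithms of the ends -/
lemma sc_mem {k R L : ℝ} (hk : 0 < k) (hk8 : k ≤ 1 / 8) (hR : 1 ≤ R) (hRL : R ≤ L) (j : ℕ) :
    j ∈ Sc k R L ↔ ⌈(Real.log R + k * Real.log (L / R)) / Real.log (1 + k)⌉₊ ≤ j ∧
      j ≤ ⌊(Real.log L - k * Real.log (L / R)) / Real.log (1 + k)⌋₊ := by
  have hR0 : 0 < R := by linarith
  have hL0 : 0 < L := by linarith
  have hU : 1 ≤ L / R := (one_le_div hR0).2 hRL
  have hlU : 0 ≤ Real.log (L / R) := Real.log_nonneg hU
  have hl : 0 < Real.log (1 + k) := Real.log_pos (by linarith)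
  have hlR : 0 ≤ Real.log R := Real.log_nonneg hR
  have hlL : Real.log (L / R) = Real.log L - Real.log R := Real.log_div hL0.ne' hR0.ne'
  have hl2 : 8 / 9 * k ≤ Real.log (1 + k) := by
    have h1 := Real.one_sub_inv_le_log_of_pos (by linarith : 0 < 1 + k)
    have h2 : 1 - (1 + k)⁻¹ = k / (1 + k) := by
      field_simp
      ring
    rw [h2] at h1
    refine le_trans ?_ h1
    rw [le_div_iff₀ (by linarith)]
    nlinarith
  have hpos1 : 0 < R * (L / R) ^ k := by positivity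
  have hpos2 : 0 < L * (L / R) ^ (-k) := by positivity
  have e1 : R * (L / R) ^ k ≤ (1 + k) ^ j ↔ (Real.log R + k * Real.log (L / R)) / Real.log (1 + k) ≤ j := by
    rw [div_le_iff₀ hl, ← Real.log_le_log_iff hpos1 (by positivity), Real.log_mul hR0.ne' (by positivity),
      Real.log_rpow (by positivity), Real.log_pow]
  have e2 : (1 + k) ^ j ≤ L * (L / R) ^ (-k) ↔ (j : ℝ) ≤ (Real.log L - k * Real.log (L / R)) / Real.log (1 + k) := by
    rw [le_div_iff₀ hl, ← Real.log_le_log_iff (by positivity) hpos2, Real.log_mul hL0.ne' (by positivity),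
      Real.log_rpow (by positivity), Real.log_pow]
    constructor <;> intro h <;> linarith
  have hb0 : 0 ≤ (Real.log L - k * Real.log (L / R)) / Real.log (1 + k) := by
    apply div_nonneg _ hl.le
    rw [hlL] at hlU ⊢
    nlinarith
  unfold Sc
  rw [Finset.mem_filter, Finset.mem_range, e1, e2, Nat.ceil_le, Nat.le_floor_iff hb0]
  constructor
  · intro h
    exact h.2
  · intro h
    refine ⟨?_, h⟩
    have h3 : (j : ℝ) ≤ L / k := by
      refine h.2.trans ?_
      rw [div_le_div_iff₀ hl hk]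
      have hy : 0 ≤ Real.log L := Real.log_nonneg (by linarith)
      have h4 : 9 / 8 * Real.log L ≤ L := by
        have h6 := Real.quadratic_le_exp_of_nonneg hy
        rw [Real.exp_log hL0] at h6
        nlinarith [sq_nonneg (Real.log L - 1)]
      have h5 : (Real.log L - k * Real.log (L / R)) * k ≤ Real.log L * k := by nlinarith [mul_nonneg hk.le hlU]
      nlinarith
    have := Nat.le_floor h3
    omega

lemma rle {d R L : ℝ} (hd : 0 < d) (hL : 1 ≤ L) (hR : R ≤ L ^ (1 - d)) : R ≤ L := by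
  refine hR.trans ?_
  calc L ^ (1 - d) ≤ L ^ (1 : ℝ) := Real.rpow_le_rpow_of_exponent_le hL (by linarith)
    _ = L := Real.rpow_one L

lemma card_main {k R L : ℝ} (hk : 0 < k) (hk8 : k ≤ 1 / 8) (hR : 1 ≤ R) (hRL : R ≤ L) :
    |((Sc k R L).card : ℝ) * Real.log (1 + k) - (1 - 2 * k) * Real.log (L / R)| ≤ Real.log (1 + k) := by
  have hR0 : 0 < R := by linarith
  have hL0 : 0 < L := by linarith
  have hU : 1 ≤ L / R := (one_le_div hR0).2 hRL
  have hlU : 0 ≤ Real.log (L / R) := Real.log_nonneg hU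
  have hl : 0 < Real.log (1 + k) := Real.log_pos (by linarith)
  have hlR : 0 ≤ Real.log R := Real.log_nonneg hR
  have hlL : Real.log (L / R) = Real.log L - Real.log R := Real.log_div hL0.ne' hR0.ne'
  set a : ℝ := (Real.log R + k * Real.log (L / R)) / Real.log (1 + k) with ha
  set b : ℝ := (Real.log L - k * Real.log (L / R)) / Real.log (1 + k) with hb
  have ha0 : 0 ≤ a := div_nonneg (by positivity) hl.le
  have hab : (b - a) * Real.log (1 + k) = (1 - 2 * k) * Real.log (L / R) := by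
    rw [ha, hb, ← sub_div, div_mul_cancel₀ _ hl.ne', hlL]
    ring
  have hab0 : a ≤ b := by
    have h1 : 0 ≤ (b - a) * Real.log (1 + k) := by
      rw [hab]
      exact mul_nonneg (by linarith) hlU
    nlinarith [nonneg_of_mul_nonneg_left h1 hl]
  have hS : Sc k R L = Finset.Icc ⌈a⌉₊ ⌊b⌋₊ := by
    ext j
    rw [sc_mem hk hk8 hR hRL, Finset.mem_Icc]
  have h1 : (⌈a⌉₊ : ℝ) < a + 1 := Nat.ceil_lt_add_one ha0
  have h2 : a ≤ (⌈a⌉₊ : ℝ) := Nat.le_ceil a
  have h3 : (⌊b⌋₊ : ℝ) ≤ b := Nat.floor_le (ha0.trans hab0)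
  have h4 : b < (⌊b⌋₊ : ℝ) + 1 := Nat.lt_floor_add_one b
  have h5 : ⌈a⌉₊ ≤ ⌊b⌋₊ + 1 := by
    have h6 : (⌈a⌉₊ : ℝ) < ((⌊b⌋₊ + 1 + 1 : ℕ) : ℝ) := by
      push_cast
      linarith
    have h7 : ⌈a⌉₊ < ⌊b⌋₊ + 1 + 1 := by exact_mod_cast h6
    omega
  have h6 : ((Sc k R L).card : ℝ) = (⌊b⌋₊ : ℝ) + 1 - ⌈a⌉₊ := by
    rw [hS, Nat.card_Icc, Nat.cast_sub h5]
    push_cast
    ring
  rw [← hab, h6, ← sub_mul, abs_mul, abs_of_pos hl]
  have h7 : |(⌊b⌋₊ : ℝ) + 1 - ⌈a⌉₊ - (b - a)| ≤ 1 := by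
    rw [abs_le]
    constructor <;> linarith
  calc _ ≤ 1 * Real.log (1 + k) := mul_le_mul_of_nonneg_right h7 hl.le
    _ = Real.log (1 + k) := one_mul _

/-- FL0 -/
theorem card_bd {k d : ℝ} (hk : 0 < k) (hk8 : k ≤ 1 / 8) (hd : 0 < d) (hd1 : d ≤ 1) : ∃ C : ℝ, 1 ≤ C ∧ ∀ R L : ℝ, C ≤ L →
    1 ≤ R → R ≤ L ^ (1 - d) →
    |((Sc k R L).card : ℝ) * Real.log (1 + k) - (1 - 2 * k) * Real.log (L / R)| ≤ Real.log (1 + k) :=
  ⟨1, le_rfl, fun _ _ hL hR hRL => card_main hk hk8 hR (rle hd hL hRL)⟩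

lemma log_ge {d R L : ℝ} (hL : 1 ≤ L) (hR : 1 ≤ R) (hRL : R ≤ L ^ (1 - d)) : d * Real.log L ≤ Real.log (L / R) := by
  have hL0 : 0 < L := by linarith
  have hR0 : 0 < R := by linarith
  rw [Real.log_div hL0.ne' hR0.ne']
  have h1 : Real.log R ≤ (1 - d) * Real.log L := by
    rw [← Real.log_rpow hL0]
    exact Real.log_le_log hR0 hRL
  linarith

/-- the number of the scales is at least `log (L/R)` -/
lemma card_low {k R L : ℝ} (hk : 0 < k) (hk8 : k ≤ 1 / 8) (hR : 1 ≤ R) (hRL : R ≤ L) (h1 : 1 ≤ Real.log (L / R)) :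
    Real.log (L / R) ≤ ((Sc k R L).card : ℝ) := by
  have hl : 0 < Real.log (1 + k) := Real.log_pos (by linarith)
  have hl2 : Real.log (1 + k) ≤ 1 / 8 := by
    have := Real.log_le_sub_one_of_pos (by linarith : 0 < 1 + k)
    linarith
  have h2 := (abs_le.1 (card_main hk hk8 hR hRL)).1
  have h3 : 1 / 4 * Real.log (L / R) ≤ ((Sc k R L).card : ℝ) * Real.log (1 + k) := by nlinarith
  have h4 : ((Sc k R L).card : ℝ) * Real.log (1 + k) ≤ ((Sc k R L).card : ℝ) * (1 / 8) :=
    mul_le_mul_of_nonneg_left hl2 (Nat.cast_nonneg _)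
  linarith

/-- the plain weights: total variation -/
lemma tv_zero {k R L : ℝ} (hk : 0 < k) (hk8 : k ≤ 1 / 8) (hR : 1 ≤ R) (hRL : R ≤ L) (M : ℕ) :
    ∑ j ∈ Finset.range M, |sh (bw k R L 0) j - bw k R L 0 j| ≤ 3 / ((Sc k R L).card : ℝ) := by
  classical
  set A : ℕ := ⌈(Real.log R + k * Real.log (L / R)) / Real.log (1 + k)⌉₊ with hA
  set B : ℕ := ⌊(Real.log L - k * Real.log (L / R)) / Real.log (1 + k)⌋₊ with hB
  set c : ℝ := 3 / (2 * ((Sc k R L).card : ℝ)) with hc
  have hc0 : 0 ≤ c := by positivity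
  have hb : ∀ j, bw k R L 0 j = if A ≤ j ∧ j ≤ B then c else 0 := by
    intro j
    show (if j ∈ Sc k R L then 3 / (2 * ((Sc k R L).card : ℝ)) else 0) = _
    by_cases h : j ∈ Sc k R L
    · rw [if_pos h, if_pos ((sc_mem hk hk8 hR hRL j).1 h)]
    · rw [if_neg h, if_neg fun h' => h ((sc_mem hk hk8 hR hRL j).2 h')]
  have hpt : ∀ j, |sh (bw k R L 0) j - bw k R L 0 j| ≤ (if j = A then c else 0) + (if j = B + 1 then c else 0) := by
    intro j
    unfold sh
    rw [hb j, hb (j - 1)]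
    by_cases h0 : j = 0
    · rw [if_pos h0]
      by_cases h1 : A ≤ j ∧ j ≤ B
      · have h2 : j = A := by omega
        have h3 : ¬ j = B + 1 := by omega
        rw [if_pos h1, if_pos h2, if_neg h3, zero_sub, abs_neg, abs_of_nonneg hc0, add_zero]
      · rw [if_neg h1, sub_zero, abs_zero]
        split_ifs <;> linarith
    · rw [if_neg h0]
      by_cases h1 : A ≤ j ∧ j ≤ B
      · by_cases h2 : A ≤ j - 1 ∧ j - 1 ≤ B
        · rw [if_pos h1, if_pos h2, sub_self, abs_zero]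
          split_ifs <;> linarith
        · have h3 : j = A := by omega
          have h4 : ¬ j = B + 1 := by omega
          rw [if_pos h1, if_neg h2, if_pos h3, if_neg h4, zero_sub, abs_neg, abs_of_nonneg hc0, add_zero]
      · by_cases h2 : A ≤ j - 1 ∧ j - 1 ≤ B
        · have h3 : ¬ j = A := by omega
          have h4 : j = B + 1 := by omega
          rw [if_neg h1, if_pos h2, if_neg h3, if_pos h4, sub_zero, abs_of_nonneg hc0, zero_add]
        · rw [if_neg h1, if_neg h2, sub_self, abs_zero]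
          split_ifs <;> linarith
  calc ∑ j ∈ Finset.range M, |sh (bw k R L 0) j - bw k R L 0 j|
      ≤ ∑ j ∈ Finset.range M, ((if j = A then c else 0) + (if j = B + 1 then c else 0)) :=
        Finset.sum_le_sum fun j _ => hpt j
    _ ≤ c + c := by
        rw [Finset.sum_add_distrib, Finset.sum_ite_eq', Finset.sum_ite_eq']
        refine add_le_add ?_ ?_ <;> · split_ifs <;> linarith
    _ = 3 / ((Sc k R L).card : ℝ) := by
        rw [hc]
        ring

lemma norm_zero {k R L : ℝ} (M : ℕ) : ∑ j ∈ Finset.range M, |bw k R L 0 j| ≤ 3 / 2 := by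
  classical
  set c : ℝ := 3 / (2 * ((Sc k R L).card : ℝ)) with hc
  have hc0 : 0 ≤ c := by positivity
  calc ∑ j ∈ Finset.range M, |bw k R L 0 j| = ∑ j ∈ Finset.range M, (if j ∈ Sc k R L then c else 0) := by
        refine Finset.sum_congr rfl fun j _ => ?_
        show |(if j ∈ Sc k R L then 3 / (2 * ((Sc k R L).card : ℝ)) else 0)| = _
        split_ifs
        · exact abs_of_nonneg hc0
        · exact abs_zero
    _ = ∑ j ∈ (Finset.range M).filter (fun j => j ∈ Sc k R L), c := (Finset.sum_filter _ _).symm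
    _ ≤ ∑ j ∈ Sc k R L, c := by
        refine Finset.sum_le_sum_of_subset_of_nonneg ?_ fun _ _ _ => hc0
        intro j hj
        exact (Finset.mem_filter.1 hj).2
    _ ≤ 3 / 2 := by
        rw [Finset.sum_const, nsmul_eq_mul, hc]
        rcases Nat.eq_zero_or_pos (Sc k R L).card with h | h
        · rw [h]
          norm_num
        · have : (0:ℝ) < (Sc k R L).card := by exact_mod_cast h
          apply le_of_eq
          field_simp

/-- all facts by induction, on all ranges -/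
lemma bw_ind {k : ℝ} (hk : 0 < k) (hk8 : k ≤ 1 / 8) (n : ℕ) : ∃ B : ℝ, 1 ≤ B ∧ ∀ R L : ℝ, 1 ≤ R → R ≤ L →
    1 ≤ Real.log (L / R) →
    (∀ j, bw k R L n j ≠ 0 → j ∈ Jw k L n ∧ R * (L / R) ^ k ≤ (1 + k) ^ j ∧ (1 + k) ^ j ≤ (1 + k) ^ n * (L * (L / R) ^ (-k))) ∧
    (∀ M : ℕ, ∑ j ∈ Finset.range M, |bw k R L n j| ≤ B) ∧
    (∀ M : ℕ, ∑ j ∈ Finset.range M, |sh (bw k R L n) j - bw k R L n j| ≤ B / Real.log (L / R)) ∧
    (∀ M : ℕ, ∑ j ∈ Finset.range M, |bw k R L n j - bw k R L 0 j| ≤ B / Real.log (L / R)) := by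
  induction n with
  | zero =>
    refine ⟨3, by norm_num, fun R L hR hRL h1 => ⟨?_, fun M => (norm_zero M).trans (by norm_num), fun M => ?_, fun M => ?_⟩⟩
    · intro j hj
      have hj' : j ∈ Sc k R L := by
        by_contra h
        apply hj
        show (if j ∈ Sc k R L then 3 / (2 * ((Sc k R L).card : ℝ)) else 0) = 0
        rw [if_neg h]
      unfold Sc at hj'
      rw [Finset.mem_filter, Finset.mem_range] at hj'
      unfold Jw
      rw [Finset.mem_range, pow_zero, one_mul]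
      exact ⟨by omega, hj'.2.1, hj'.2.2⟩
    · refine (tv_zero hk hk8 hR hRL M).trans ?_
      exact div_le_div_of_nonneg_left (by norm_num) (by linarith) (card_low hk hk8 hR hRL h1)
    · simp only [sub_self, abs_zero, Finset.sum_const_zero]
      positivity
  | succ n ih =>
    obtain ⟨B, hB, h⟩ := ih
    have hq := q_bd hk (le_refl 1)
    have hq0 : 0 < 1 - 1 / (1 + k) ^ 2 := by
      have := hq.2.2
      linarith
    set D : ℝ := 2 / (1 - 1 / (1 + k) ^ 2) with hD
    have hD2 : 2 ≤ D := by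
      rw [hD, le_div_iff₀ hq0]
      have : 0 < 1 / (1 + k) ^ 2 := by positivity
      linarith
    refine ⟨(D + 1) * B, by nlinarith, fun R L hR hRL h1 => ?_⟩
    obtain ⟨i1, i2, i3, i4⟩ := h R L hR hRL h1
    have hl0 : 0 < Real.log (L / R) := by linarith
    have hBl : 0 ≤ B / Real.log (L / R) := by positivity
    refine ⟨fun j hj => ?_, fun M => ?_, fun M => ?_, fun M => ?_⟩
    · have hpos : 0 < L * (L / R) ^ (-k) := by
        have : 0 < L := by linarith
        have : 0 < R := by linarith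
        positivity
      have hj' : bw k R L n j ≠ 0 ∨ (j ≠ 0 ∧ bw k R L n (j - 1) ≠ 0) := by
        by_contra hcon
        push Not at hcon
        apply hj
        show fl k (n + 1) (bw k R L n) j = 0
        rw [fl_eq, hcon.1]
        unfold sh
        by_cases h0 : j = 0
        · rw [if_pos h0]
          simp
        · rw [if_neg h0, hcon.2 h0]
          simp
      have hm : (1 + k) ^ (n + 1) * (L * (L / R) ^ (-k)) = (1 + k) * ((1 + k) ^ n * (L * (L / R) ^ (-k))) := by ring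
      rcases hj' with hj' | ⟨h0, hj'⟩
      · obtain ⟨e1, e2, e3⟩ := i1 j hj'
        unfold Jw at e1 ⊢
        rw [Finset.mem_range] at e1 ⊢
        refine ⟨by omega, e2, ?_⟩
        rw [hm]
        have : 0 < (1 + k) ^ n * (L * (L / R) ^ (-k)) := by positivity
        nlinarith
      · obtain ⟨e1, e2, e3⟩ := i1 (j - 1) hj'
        unfold Jw at e1 ⊢
        rw [Finset.mem_range] at e1 ⊢
        have hj1 : (1 + k) ^ j = (1 + k) * (1 + k) ^ (j - 1) := by
          conv_lhs => rw [show j = j - 1 + 1 by omega, pow_succ]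
          ring
        refine ⟨by omega, ?_, ?_⟩
        · rw [hj1]
          have : 0 < (1 + k) ^ (j - 1) := by positivity
          nlinarith
        · rw [hm, hj1]
          exact mul_le_mul_of_nonneg_left e3 (by linarith)
    · have h2 := fl_norm hk (by omega : 1 ≤ n + 1) (bw k R L n) M
      refine le_trans h2 ?_
      rw [← hD]
      nlinarith [i2 M]
    · have h2 := fl_tv hk (by omega : 1 ≤ n + 1) (bw k R L n) M
      refine le_trans h2 ?_
      rw [← hD]
      have h3 : (D + 1) * B / Real.log (L / R) = (D + 1) * (B / Real.log (L / R)) := by ring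
      rw [h3]
      nlinarith [i3 M]
    · have h2 := fl_diff hk (by omega : 1 ≤ n + 1) (bw k R L n) M
      have h4 : 1 / (1 - 1 / (1 + k) ^ 2) = D / 2 := by
        rw [hD]
        field_simp
      rw [h4] at h2
      have h3 : (D + 1) * B / Real.log (L / R) = (D + 1) * (B / Real.log (L / R)) := by ring
      rw [h3]
      calc ∑ j ∈ Finset.range M, |bw k R L (n + 1) j - bw k R L 0 j|
          ≤ ∑ j ∈ Finset.range M, (|fl k (n + 1) (bw k R L n) j - bw k R L n j| + |bw k R L n j - bw k R L 0 j|) :=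
            Finset.sum_le_sum fun j _ => abs_sub_le _ _ _
        _ = ∑ j ∈ Finset.range M, |fl k (n + 1) (bw k R L n) j - bw k R L n j| +
              ∑ j ∈ Finset.range M, |bw k R L n j - bw k R L 0 j| := Finset.sum_add_distrib
        _ ≤ D / 2 * (B / Real.log (L / R)) + B / Real.log (L / R) := by
            have h5 : D / 2 * ∑ j ∈ Finset.range M, |sh (bw k R L n) j - bw k R L n j| ≤ D / 2 * (B / Real.log (L / R)) :=
              mul_le_mul_of_nonneg_left (i3 M) (by linarith)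
            linarith [i4 M]
        _ ≤ (D + 1) * (B / Real.log (L / R)) := by nlinarith

/-- FL1 -/
theorem bw_facts {k d : ℝ} (hk : 0 < k) (hk8 : k ≤ 1 / 8) (hd : 0 < d) (hd1 : d ≤ 1) (n : ℕ) : ∃ B C : ℝ, 1 ≤ B ∧ 1 ≤ C ∧
    ∀ R L : ℝ, C ≤ L → 1 ≤ R → R ≤ L ^ (1 - d) →
    (∀ j, bw k R L n j ≠ 0 → j ∈ Jw k L n ∧ R * (L / R) ^ k ≤ (1 + k) ^ j ∧ (1 + k) ^ j ≤ (1 + k) ^ n * (L * (L / R) ^ (-k))) ∧
    ∑ j ∈ Jw k L n, |bw k R L n j| ≤ B ∧
    ∑ j ∈ Jw k L n, |bw k R L n j - bw k R L 0 j| ≤ B / Real.log (L / R) := by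
  obtain ⟨B, hB, h⟩ := bw_ind hk hk8 n
  refine ⟨B, Real.exp (1 / d), hB, Real.one_le_exp (by positivity), fun R L hL hR hRL => ?_⟩
  have hL1 : 1 ≤ L := (Real.one_le_exp (by positivity)).trans hL
  have h1 : 1 ≤ Real.log (L / R) := by
    refine le_trans ?_ (log_ge hL1 hR hRL)
    have h2 : 1 / d ≤ Real.log L := by
      rw [← Real.log_exp (1 / d)]
      exact Real.log_le_log (Real.exp_pos _) hL
    calc 1 = d * (1 / d) := by field_simp
      _ ≤ d * Real.log L := mul_le_mul_of_nonneg_left h2 hd.le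
  obtain ⟨i1, i2, i3, i4⟩ := h R L hR (rle hd hL1 hRL) h1
  exact ⟨i1, i2 _, i4 _⟩

end Pool.Agent.Helper7.NW
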